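import Pool.Agent.Work.MP_ae9a8c_lc.SD.Final

/-!
MP_ae9a8c_lc, partial answer to Q1: an NIP valued field of residue characteristic 0 is henselian if and
only if, in cofinally many finite extensions, the q-th powers have finite index in the principal units
(or in the multiplicative group) for some prime q such that a residue field has q-th roots of unity.
-/

set_option autoImplicit false

namespace Pool.Agent.Results.MP_ae9a8c_lc.FiniteIndex

open Pool.Agent.Work.MP_ae9a8c_lc.FI Pool.Agent.Work.MP_ae9a8c_lc.SD

/-- Let `(K, O)` be a valued field with residue field of characteristic 0 which is NIP (exactly as in the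
problem's Lean statement).  The following are equivalent: `O` is henselian; every finite extension of `K`
is contained in a finite extension `L'` with a prime `q` such that some residue field of `L'` contains a
primitive `q`-th root of unity and the `q`-th powers have finite index in the multiplicative group of `L'`
or in its group of principal units; every principal unit of every finite extension of `K` is a `q`-th
power of a principal unit for all primes `q`. -/
theorem result (K : Type) [Field K] (O : ValuationSubring K)
    (hO : CharZero (IsLocalRing.ResidueField O))
    (hN : ∀ (m k : ℕ)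
        (φ : (FirstOrder.Language.mk (fun _ => Empty)
                (fun n => Fin n × Fin n × Fin n × Fin 3)).Formula (Fin m ⊕ Fin k)),
      ∃ N : ℕ, ¬ ∃ a : Fin N → Fin m → K, ∀ S : Set (Fin N), ∃ b : Fin k → K,
        ∀ i : Fin N,
          (@FirstOrder.Language.Formula.Realize
              (FirstOrder.Language.mk (fun _ => Empty)
                (fun n => Fin n × Fin n × Fin n × Fin 3))
              K
              { funMap := fun f _ => Empty.elim f,
                RelMap := fun r x =>
                  if r.2.2.2 = 0 then x r.1 + x r.2.1 = x r.2.2.1
                  else if r.2.2.2 = 1 then x r.1 * x r.2.1 = x r.2.2.1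
                  else x r.1 ∈ O }
              (Fin m ⊕ Fin k) φ (Sum.elim (a i) b) ↔ i ∈ S)) :
    (HenselianLocalRing O ↔ ∀ L : IntermediateField K (AlgebraicClosure K),
      FiniteDimensional K L → ∃ L' : IntermediateField K (AlgebraicClosure K), L ≤ L' ∧
        FiniteDimensional K L' ∧ ∃ q : ℕ, q.Prime ∧ ResRoot O L' q ∧
          (FinPow L' q ∨ FinPrU O L' q)) ∧
    (HenselianLocalRing O ↔ ∀ L : IntermediateField K (AlgebraicClosure K),
      FiniteDimensional K L → ∀ q : ℕ, q.Prime → ∀ u : L, PrU O u →
        ∃ w : L, PrU O w ∧ u = w ^ q) :=
  henselian_tfae2 K O hO hN

end Pool.Agent.Results.MP_ae9a8c_lc.FiniteIndex
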