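import Pool.Agent.Work.MP_ae9a8c_lc.SD.Final

/-!
MP_ae9a8c_lc, partial answer to Q1: strongly dependent valued fields of residue characteristic 0, some
finite extension of whose residue field has roots of unity of infinitely many prime orders, are
henselian.
-/

set_option autoImplicit false

namespace Pool.Agent.Results.MP_ae9a8c_lc.StronglyDependent

open Pool.Agent.Work.MP_ae9a8c_lc.SD

/-- Let `(K, O)` be a strongly dependent valued field with residue field of characteristic 0, and suppose
that some finite extension `k` of the residue field contains primitive `q`-th roots of unity for
infinitely many primes `q` (for instance: the residue field is algebraically closed or real closed).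
Then `O` is henselian. -/
theorem result (K : Type) [Field K] (O : ValuationSubring K)
    (hO : CharZero (IsLocalRing.ResidueField O)) (hS : StrDep K O)
    (k : Type) [Field k] [Algebra (IsLocalRing.ResidueField O) k]
    [FiniteDimensional (IsLocalRing.ResidueField O) k]
    (hk : {q : ℕ | q.Prime ∧ ∃ ζ : k, IsPrimitiveRoot ζ q}.Infinite) :
    HenselianLocalRing O :=
  henselian_of_strDep K O hO hS k hk

end Pool.Agent.Results.MP_ae9a8c_lc.StronglyDependent
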